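import Pool.Agent.H34.CGS.Stmts

/-!
Row RZX of the board cgs: approximate Riesz representation by polynomials: a nearly minimal point of
`n2 (pe x P) ^ 2 / 2 - Re (d P)`.
-/

set_option autoImplicit false

noncomputable section

namespace Pool.CGS

open Pool.CGR

namespace RZXaux

theorem re_star {A : Type} [CStarAlgebra A] {τ : A →ₗ[ℂ] ℂ} (hτ : IsTrace τ) (a : A) :
    (τ (star a)).re = (τ a).re := by
  have h1 := (hτ.pos (a + Complex.I • (1 : A))).2
  have h2 := (hτ.pos a).2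
  have h3 : star (a + Complex.I • (1 : A)) * (a + Complex.I • (1 : A)) =
      star a * a + Complex.I • star a - Complex.I • a + 1 := by
    have hII : Complex.I • Complex.I • (1 : A) = -(1 : A) := by
      rw [smul_smul, Complex.I_mul_I, neg_smul, one_smul]
    rw [star_add, star_smul, star_one, Complex.star_def, Complex.conj_I]
    simp only [add_mul, mul_add, smul_mul_assoc, mul_smul_comm, one_mul, mul_one, neg_smul,
      neg_mul, smul_add, smul_neg, hII]
    abel
  rw [h3] at h1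
  simp only [map_add, map_sub, map_smul, hτ.one, smul_eq_mul, Complex.add_im, Complex.sub_im,
    Complex.mul_im, Complex.I_re, Complex.I_im, Complex.one_im, h2] at h1
  linarith

theorem n2_sq {A : Type} [CStarAlgebra A] {τ : A →ₗ[ℂ] ℂ} (hτ : IsTrace τ) (a : A) :
    n2 τ a ^ 2 = (τ (star a * a)).re := Real.sq_sqrt (hτ.pos a).1

theorem n2_nonneg {A : Type} [CStarAlgebra A] (τ : A →ₗ[ℂ] ℂ) (a : A) : 0 ≤ n2 τ a :=
  Real.sqrt_nonneg _

theorem expand {A : Type} [CStarAlgebra A] {τ : A →ₗ[ℂ] ℂ} (hτ : IsTrace τ) (a b : A) (t : ℝ) :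
    n2 τ (a + (t : ℂ) • b) ^ 2 = n2 τ a ^ 2 + 2 * t * (τ (star a * b)).re + t ^ 2 * n2 τ b ^ 2 := by
  rw [n2_sq hτ, n2_sq hτ, n2_sq hτ]
  have h1 : star (a + (t : ℂ) • b) * (a + (t : ℂ) • b) =
      star a * a + (t : ℂ) • (star a * b) + (t : ℂ) • (star b * a) +
        ((t : ℂ) * t) • (star b * b) := by
    rw [star_add, star_smul, Complex.star_def, Complex.conj_ofReal]
    simp only [add_mul, mul_add, smul_mul_assoc, mul_smul_comm, smul_smul, smul_add]
    abel
  have h2 : (τ (star b * a)).re = (τ (star a * b)).re := by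
    rw [← re_star hτ (star a * b), star_mul, star_star]
  rw [h1]
  simp only [map_add, map_smul, smul_eq_mul, Complex.add_re, Complex.mul_re, Complex.ofReal_re,
    Complex.ofReal_im, Complex.mul_im, h2]
  ring

end RZXaux

open RZXaux

theorem rzx_thm (h1 : TWOStmt) (h2 : PALStmt) : RZXStmt := by
  intro m A _ τ hτ x hx d C hd δ hδ
  obtain ⟨pa, -, pc, -, -, pf⟩ := h2 (Fin m) A τ x
  obtain ⟨-, -, -, -, t5⟩ := h1 A τ hτ
  set F : (List (Fin m) →₀ ℂ) → ℝ := fun P => n2 τ (pe x P) ^ 2 / 2 - (d P).re with hF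
  have hlow : ∀ P, -(C ^ 2 / 2) ≤ F P := by
    intro P
    have e1 := (Complex.re_le_norm (d P)).trans (hd P)
    simp only [hF]
    nlinarith [sq_nonneg (n2 τ (pe x P) - C)]
  have hbdd : BddBelow (Set.range F) := ⟨_, by rintro _ ⟨P, rfl⟩; exact hlow P⟩
  have hlt : sInf (Set.range F) < sInf (Set.range F) + δ ^ 2 / 2 := by
    have : 0 < δ ^ 2 / 2 := by positivity
    linarith
  obtain ⟨_, ⟨P₁, rfl⟩, hP₁⟩ := exists_lt_of_csInf_lt (Set.range_nonempty F) hlt
  obtain ⟨R, hR⟩ := pf hx P₁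
  refine ⟨R, ?_⟩
  have key : ∀ P, |(τ (star (pe x P₁) * pe x P)).re - (d P).re| ≤ δ * n2 τ (pe x P) := by
    intro P
    have hquad : ∀ t : ℝ, 0 ≤ n2 τ (pe x P) ^ 2 / 2 * (t * t) +
        ((τ (star (pe x P₁) * pe x P)).re - (d P).re) * t + δ ^ 2 / 2 := by
      intro t
      have e1 : sInf (Set.range F) ≤ F (P₁ + (t : ℂ) • P) := csInf_le hbdd ⟨_, rfl⟩
      have e2 : F (P₁ + (t : ℂ) • P) = F P₁ +
          t * ((τ (star (pe x P₁) * pe x P)).re - (d P).re) + t ^ 2 / 2 * n2 τ (pe x P) ^ 2 := by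
        simp only [hF]
        rw [(pa P₁ ((t : ℂ) • P)).1, (pc (t : ℂ) P).1, expand hτ, map_add, map_smul, smul_eq_mul,
          Complex.add_re, Complex.mul_re, Complex.ofReal_re, Complex.ofReal_im]
        ring
      rw [e2] at e1
      nlinarith
    have hdis := discrim_le_zero hquad
    unfold discrim at hdis
    apply abs_le_of_sq_le_sq _ (mul_nonneg hδ.le (n2_nonneg _ _))
    nlinarith
  intro P
  rw [hR]
  set w : ℂ := τ (star (pe x P₁) * pe x P) - d P with hw
  have hgoal : ‖d P - τ (star (pe x P₁) * pe x P)‖ = ‖w‖ := by rw [hw, norm_sub_rev]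
  rw [hgoal]
  by_cases hw0 : w = 0
  · rw [hw0, norm_zero]
    exact mul_nonneg hδ.le (n2_nonneg _ _)
  have hwn : (‖w‖ : ℝ) ≠ 0 := norm_ne_zero_iff.2 hw0
  set c : ℂ := (starRingEnd ℂ) w / (‖w‖ : ℂ) with hc
  have hc1 : ‖c‖ = 1 := by
    rw [hc, norm_div, RCLike.norm_conj, Complex.norm_real, norm_norm, div_self hwn]
  have hcw : c * w = (‖w‖ : ℂ) := by
    have hwn' : ((‖w‖ : ℝ) : ℂ) ≠ 0 := Complex.ofReal_ne_zero.2 hwn
    rw [hc, div_mul_eq_mul_div, mul_comm, Complex.mul_conj, Complex.normSq_eq_norm_sq,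
      div_eq_iff hwn']
    push_cast
    ring
  have hk := key (c • P)
  rw [(pc c P).1, t5, hc1, one_mul, map_smul, mul_smul_comm, map_smul, smul_eq_mul, smul_eq_mul,
    ← Complex.sub_re, ← mul_sub, ← hw, hcw, Complex.ofReal_re, abs_of_nonneg (norm_nonneg _)] at hk
  exact hk

end Pool.CGS
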